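import Mathlib

/-! An upper bound for Purdy's constant `c*`. -/

namespace Pool.Agent.Results.MP_9f1016_co.Prism

open Finset

section
variable {R : Type} [CommRing R] [DecidableEq R]

/-- the cross product `(b - a) × (c - a)` -/
def cr (a b c : R × R × R) : R × R × R :=
  ((b.2.1 - a.2.1) * (c.2.2 - a.2.2) - (b.2.2 - a.2.2) * (c.2.1 - a.2.1),
   (b.2.2 - a.2.2) * (c.1 - a.1) - (b.1 - a.1) * (c.2.2 - a.2.2),
   (b.1 - a.1) * (c.2.1 - a.2.1) - (b.2.1 - a.2.1) * (c.1 - a.1))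

/-- the determinant of `b - a`, `c - a`, `d - a` -/
def dt (a b c d : R × R × R) : R :=
  (cr a b c).1 * (d.1 - a.1) + (cr a b c).2.1 * (d.2.1 - a.2.1) + (cr a b c).2.2 * (d.2.2 - a.2.2)

/-- determined lines, each recorded by the points of `S` on it -/
def lines (S : Finset (R × R × R)) : Finset (Finset (R × R × R)) :=
  ((S ×ˢ S).filter fun p => p.1 ≠ p.2).image fun p => S.filter fun x => cr p.1 p.2 x = 0

/-- determined planes, each recorded by the points of `S` on it -/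
def planes (S : Finset (R × R × R)) : Finset (Finset (R × R × R)) :=
  ((S ×ˢ S ×ˢ S).filter fun p => cr p.1 p.2.1 p.2.2 ≠ 0).image
    fun p => S.filter fun x => dt p.1 p.2.1 p.2.2 x = 0
end

/-- not in one plane and not in the union of two lines -/
def Adm (S : Finset (ℝ × ℝ × ℝ)) : Prop :=
  (¬ ∃ a b c, cr a b c ≠ 0 ∧ ∀ x ∈ S, dt a b c x = 0) ∧
  ¬ ∃ a b c d, a ≠ b ∧ c ≠ d ∧ ∀ x ∈ S, cr a b x = 0 ∨ cr c d x = 0

/-- integer points -/
def em (p : ℤ × ℤ × ℤ) : ℝ × ℝ × ℝ := (p.1, p.2.1, p.2.2)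

theorem em_inj : Function.Injective em := fun p q h => by
  simp only [em, Prod.mk.injEq, Int.cast_inj] at h
  exact Prod.ext h.1 (Prod.ext h.2.1 h.2.2)

theorem cr_em (a b c : ℤ × ℤ × ℤ) : cr (em a) (em b) (em c) = 0 ↔ cr a b c = 0 := by
  have : cr (em a) (em b) (em c) = em (cr a b c) := by simp [cr, em]
  rw [this, show (0 : ℝ × ℝ × ℝ) = em 0 by simp [em, Prod.ext_iff], em_inj.eq_iff]

theorem dt_em (a b c d : ℤ × ℤ × ℤ) : dt (em a) (em b) (em c) (em d) = 0 ↔ dt a b c d = 0 := by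
  have : dt (em a) (em b) (em c) (em d) = (dt a b c d : ℤ) := by simp [dt, cr, em]
  rw [this, Int.cast_eq_zero]

/-- an affinely regular hexagonal prism -/
def T : Finset (ℤ × ℤ × ℤ) :=
  {(1, 0, 0), (1, 1, 0), (0, 1, 0), (-1, 0, 0), (-1, -1, 0), (0, -1, 0),
   (1, 0, 1), (1, 1, 1), (0, 1, 1), (-1, 0, 1), (-1, -1, 1), (0, -1, 1)}

theorem par {a b x y z : ℝ × ℝ × ℝ} (h : a ≠ b) (hx : cr a b x = 0) (hy : cr a b y = 0)
    (hz : cr a b z = 0) : cr x y z = 0 := by
  simp only [cr, Prod.ext_iff, Prod.fst_zero, Prod.snd_zero, ne_eq] at *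
  obtain ⟨x1, x2, x3⟩ := hx
  obtain ⟨y1, y2, y3⟩ := hy
  obtain ⟨z1, z2, z3⟩ := hz
  by_cases e1 : b.1 - a.1 = 0
  · by_cases e2 : b.2.1 - a.2.1 = 0
    · have e3 : b.2.2 - a.2.2 ≠ 0 := fun e => h ⟨by linarith, by linarith, by linarith⟩
      refine ⟨mul_left_cancel₀ e3 ?_, mul_left_cancel₀ e3 ?_, mul_left_cancel₀ e3 ?_⟩ <;> grind
    · refine ⟨mul_left_cancel₀ e2 ?_, mul_left_cancel₀ e2 ?_, mul_left_cancel₀ e2 ?_⟩ <;> grind
  · refine ⟨mul_left_cancel₀ e1 ?_, mul_left_cancel₀ e1 ?_, mul_left_cancel₀ e1 ?_⟩ <;> grind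

theorem c1 : (lines T).card = 66 := by decide +kernel
theorem c2 : ∀ x ∈ T, ((planes T).filter fun P => x ∈ P).card ≤ 20 := by decide +kernel
theorem c3 : ∀ x ∈ T, ∀ y ∈ T, ∀ z ∈ T, x ≠ y → x ≠ z → y ≠ z → cr x y z ≠ 0 := by decide +kernel

open Classical in
theorem result : ∃ S : Finset (ℝ × ℝ × ℝ), Adm S ∧
    ∀ x ∈ S, 33 * ((planes S).filter fun P => x ∈ P).card ≤ 10 * (lines S).card := by
  have m : ∀ p ∈ T, em p ∈ T.image em := fun p hp => mem_image_of_mem _ hp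
  refine ⟨T.image em, ⟨?_, ?_⟩, fun x hx => ?_⟩
  · rintro ⟨a, b, c, h, h'⟩
    have h1 := h' _ (m (1, 0, 0) (by decide))
    have h2 := h' _ (m (1, 1, 0) (by decide))
    have h3 := h' _ (m (0, 1, 0) (by decide))
    have h4 := h' _ (m (1, 0, 1) (by decide))
    simp only [dt, em] at h1 h2 h3 h4
    push_cast at h1 h2 h3 h4
    exact h (Prod.ext (by simp only [Prod.fst_zero]; linarith)
      (Prod.ext (by simp only [Prod.fst_zero, Prod.snd_zero]; linarith)
        (by simp only [Prod.snd_zero]; linarith)))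
  · rintro ⟨a, b, c, d, h1, h2, h⟩
    have key : ∀ a b : ℝ × ℝ × ℝ, a ≠ b → (T.filter fun p => cr a b (em p) = 0).card ≤ 2 := by
      intro a b hab
      by_contra k
      obtain ⟨x, y, z, hx, hy, hz, e1, e2, e3⟩ := two_lt_card_iff.1 (not_le.1 k)
      rw [mem_filter] at hx hy hz
      exact c3 x hx.1 y hy.1 z hz.1 e1 e2 e3 ((cr_em _ _ _).1 (par hab hx.2 hy.2 hz.2))
    have : T ⊆ (T.filter fun p => cr a b (em p) = 0) ∪ (T.filter fun p => cr c d (em p) = 0) :=
      fun p hp => by simpa [hp] using h _ (m p hp)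
    have h3 := (card_le_card this).trans (card_union_le _ _)
    have h4 : T.card = 12 := by decide
    have := key a b h1
    have := key c d h2
    omega
  · obtain ⟨x, hxT, rfl⟩ := mem_image.1 hx
    have a1 : (lines T).image (image em) ⊆ lines (T.image em) := by
      intro L hL
      simp only [lines, mem_image, mem_filter, mem_product] at hL
      obtain ⟨_, ⟨p, ⟨⟨h1, h2⟩, h3⟩, rfl⟩, rfl⟩ := hL
      refine mem_image.2 ⟨(em p.1, em p.2), mem_filter.2 ⟨mem_product.2 ⟨m _ h1, m _ h2⟩,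
        em_inj.ne h3⟩, ?_⟩
      rw [filter_image]
      simp only [cr_em]
    have a2 : ((planes (T.image em)).filter fun P => em x ∈ P) ⊆
        ((planes T).filter fun P => x ∈ P).image (image em) := by
      intro L hL
      rw [mem_filter, planes, mem_image] at hL
      obtain ⟨⟨⟨a, b, c⟩, hp, rfl⟩, hx'⟩ := hL
      simp only [mem_filter, mem_product] at hp
      obtain ⟨⟨h1, h2, h3⟩, h4⟩ := hp
      obtain ⟨a, ha, rfl⟩ := mem_image.1 h1
      obtain ⟨b, hb, rfl⟩ := mem_image.1 h2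
      obtain ⟨c, hc, rfl⟩ := mem_image.1 h3
      refine mem_image.2 ⟨T.filter fun y => dt a b c y = 0, mem_filter.2 ⟨mem_image.2 ⟨(a, b, c),
        mem_filter.2 ⟨mem_product.2 ⟨ha, mem_product.2 ⟨hb, hc⟩⟩,
          fun e => h4 ((cr_em _ _ _).2 e)⟩, rfl⟩,
        mem_filter.2 ⟨hxT, (dt_em _ _ _ _).1 (mem_filter.1 hx').2⟩⟩, ?_⟩
      rw [filter_image]
      simp only [dt_em]
    have b1 := card_le_card a1
    rw [card_image_of_injective _ (image_injective em_inj), c1] at b1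
    have b2 := ((card_le_card a2).trans card_image_le).trans (c2 x hxT)
    omega

end Pool.Agent.Results.MP_9f1016_co.Prism
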